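import Pool.Agent.P.MP_1206ce_ag.Alg.CDefs
import Pool.Agent.P.MP_1206ce_ag.BO.TauK

/-! Strata of the space of triples: definitions. -/

open scoped Topology
open Filter Set

noncomputable section

namespace Pool.Agent.HK

namespace Qv

variable (Q : Qv)

/-- The loop `t^λ`. -/
def tl (l : Q.Lam) : ℤ → Q.Mat := fun k => Matrix.diagonal fun a => if Q.lv l a = k then 1 else 0
/-- Cocharacters with entries in `[-m, m]`. -/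
def Box (m : ℕ) : Finset Q.Lam := Fintype.piFinset fun _ => Finset.Icc (-(m : ℤ)) m
/-- The fibre of the space of triples over `t^λ`. -/
def UL (l : Q.Lam) (d : ℕ) : Set Q.Tr :=
  {p | p.1 = Q.tl l ∧ p.2 ∈ Q.Jet d ∧
    ∀ (i : ℕ) h a b, (i : ℤ) < -Q.prP l (h, a, b) → p.2 i h a b = 0}
/-- Positions of its coordinates. -/
def PU (l : Q.Lam) (d : ℕ) : Finset (Q.Ps × ℕ) :=
  (Q.WI ×ˢ Finset.range d).filter fun q => -Q.prP l q.1 ≤ (q.2 : ℤ)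
/-- The jet coordinates. -/
def coU (p : Q.Tr) (q : Q.Ps × ℕ) : ℂ := p.2 q.2 q.1.1 q.1.2.1 q.1.2.2
/-- The character of a position; `linF (chP p) = wtP p`. -/
def chP (p : Q.Ps) : Q.Var → ℤ := Sum.elim
  (fun k => (if p.2.1 = some k then 1 else 0) - (if p.2.2 = some k then 1 else 0)) (Q.wt p.1)
/-- The labelling whose group is the stabiliser of `λ`. -/
def labl (l : Q.Lam) : Q.Var → (Fin Q.nI ⊕ Fin Q.nT) × ℤ := fun x => (Q.lab x, Sum.elim l 0 x)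
/-- Positions of the coordinates of the attracting cell of `t^λ`. -/
def NL (l : Q.Lam) : Finset ((Fin Q.nB × Fin Q.nB) × ℕ) :=
  (Finset.univ.filter fun p : Fin Q.nB × Fin Q.nB => Q.vt p.1 = Q.vt p.2).biUnion fun p =>
    (Finset.Ico 1 (l p.1 - l p.2).toNat).image fun i => (p, i)
/-- Their characters. -/
def chN (q : (Fin Q.nB × Fin Q.nB) × ℕ) : Q.Var → ℤ :=
  Pi.single (Sum.inl q.1.1) 1 - Pi.single (Sum.inl q.1.2) 1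
/-- The saturation of a set of pairs. -/
def Sat (S : Set Q.Tr) : Set Q.Tr := {p | ∃ u ∈ Q.KK, Q.actR u p ∈ S}

/-- The properties of the stratification. -/
structure Strat (m d : ℕ) (RC : Q.Lam → Set Q.Tr) : Prop where
  sub : ∀ l ∈ Q.Box m, RC l ⊆ Q.RR m d
  cover : ∀ p ∈ Q.RR m d, ∃ l ∈ Q.Box m, p ∈ Q.Sat (RC l)
  inv : ∀ l ∈ Q.Box m, InvX (KG (Q.labl l)) Q.actR (RC l)
  stab : ∀ l ∈ Q.Box m, ∀ p ∈ RC l, ∀ u ∈ Q.KK, Q.actR u p ∈ RC l → u ∈ KG (Q.labl l)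
  weyl : ∀ l ∈ Q.Box m, ∀ w ∈ Wl Q.lab, ∀ p ∈ RC l, Q.actR (pmat w) p ∈ RC (Q.wl w l)
  disj : ∀ l ∈ Q.Box m, ∀ l' ∈ Q.Box m, ∀ p ∈ RC l, p ∈ Q.Sat (RC l') →
    ∃ w ∈ Wl Q.lab, l' = Q.wl w l
  closedIn : ∀ l ∈ Q.Box m, ClosedIn (RC l) (Q.Sat (RC l))
  front : ∀ l ∈ Q.Box m, ∀ p ∈ closure (Q.Sat (RC l)), p ∈ Q.Sat (RC l) ∨
    ∃ l' ∈ Q.Box m, p ∈ Q.Sat (RC l') ∧ Q.nsq l' < Q.nsq l
  charge : ∀ l ∈ Q.Box m, ∀ p ∈ Q.Sat (RC l), ∀ (i : Fin Q.nI) (z : ℂ), ‖z‖ = 1 →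
    Matrix.det (Matrix.of fun a b => if Q.vb a = some i ∧ Q.vb b = some i then
      Q.evl m p.1 z a b else if a = b then 1 else 0) =
      z ^ (∑ k ∈ Finset.univ.filter (fun k => Q.vt k = i), l k)
  coords : ∀ l ∈ Q.Box m, ∃ (co : Q.Tr → ↥(Q.NL l) ⊕ ↥(Q.PU l d) → ℂ)
    (g : (↥(Q.NL l) ⊕ ↥(Q.PU l d) → ℂ) → Q.Tr)
    (ρ : Matrix Q.Var Q.Var ℂ → (↥(Q.NL l) ⊕ ↥(Q.PU l d) → ℂ) → ↥(Q.NL l) ⊕ ↥(Q.PU l d) → ℂ),
    HomeoOn co g (RC l) univ ∧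
    IsMod (Q.labl l) ρ (Sum.elim (fun q => Q.chN q.1) fun q => Q.chP q.1.1) ∧
    (∀ u ∈ KG (Q.labl l), ∀ p ∈ RC l, co (Q.actR u p) = ρ u (co p)) ∧
    Q.UL l d = {p | p ∈ RC l ∧ ∀ q, co p (Sum.inl q) = 0} ∧
    ∀ p ∈ Q.UL l d, ∀ q, co p (Sum.inr q) = Q.coU p q.1

end Qv

end Pool.Agent.HK
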