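import Pool.Agent.P.MP_1206ce_ag.BG.Defs
import Pool.Agent.P.MP_1206ce_ag.ST.Orb
import Pool.Agent.P.MP_1206ce_ag.ST.CoCont

/-! The stratification of the space of triples. -/

noncomputable section

namespace Pool.Agent.HK

theorem Qv.exists_strat (Q : Qv) (m d : ℕ) (h : 2 * m ≤ d) : ∃ RC, Q.Strat m d RC :=
  ⟨Q.RCell m d,
    { sub := fun _ _ _ hp => hp.1
      cover := Q.st_cover m d
      inv := Q.st_inv m d
      stab := Q.st_stab m d
      weyl := Q.st_weyl m d
      disj := Q.st_disj m d
      closedIn := Q.st_closedIn m d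
      front := Q.st_front m d
      charge := Q.st_charge m d
      coords := fun l hl => ⟨Q.coC m d l, Q.paC m d l, Q.rhoC d l,
        ⟨Q.st_continuousOn_coC hl, (Q.st_continuous_paC hl).continuousOn,
          fun _ _ => Set.mem_univ _, fun c _ => Q.st_paC_mem hl h c,
          fun _ hp => Q.st_paC_coC hl hp, fun c _ => Q.st_coC_paC hl c⟩,
        Q.st_isMod l d, fun _ hu _ hp => Q.st_coC_actR hl hu hp, Q.st_UL hl,
        Q.st_coC_UL hl⟩ }⟩

end Pool.Agent.HK
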